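import Pool.Agent.Helper49.KR.St

/-!
# Project KR, module CIR
-/

set_option autoImplicit false

namespace Pool.Agent.Helper15.KR

open Pool.Agent.Helper49.KX Pool.Agent.Helper49.KR

theorem hCIR : StCir := by
  refine ⟨AddCircle.homeomorphCircle one_ne_zero, fun θ => ?_⟩
  ext z
  have hφ : ∀ x : X0, AddCircle.homeomorphCircle one_ne_zero x = AddCircle.toCircle x :=
    fun x => AddCircle.homeomorphCircle_apply one_ne_zero x
  have h1 : AddCircle.toCircle (T := 1) ((θ : ℝ) : X0) = Circle.exp (2 * Real.pi * θ) := by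
    rw [AddCircle.toCircle_apply_mk, div_one]
  have h3 : rot θ ((AddCircle.homeomorphCircle one_ne_zero : X0 ≃ₜ Circle).symm z) =
      ((θ : ℝ) : X0) + (AddCircle.homeomorphCircle one_ne_zero : X0 ≃ₜ Circle).symm z := rfl
  rw [Homeomorph.trans_apply, Homeomorph.trans_apply, h3, hφ, AddCircle.toCircle_add, h1, ← hφ,
    Homeomorph.apply_symm_apply]
  rfl

end Pool.Agent.Helper15.KR
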